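import Pool.Agent.H14.RG.Targets

/-!
# Board reg_modules, row A_RIN: the right inverse of the derivative of a submersion
-/

set_option autoImplicit false

namespace Pool.Agent.H45.RG

open MeasureTheory Metric Set Filter Topology Pool.Agent.H87.SN Pool.Agent.H14.RG
open scoped ContDiff RealInnerProductSpace

/-- the adjoint as a real linear map -/
noncomputable def adjL (m c : ℕ) : (E m →L[ℝ] E c) →L[ℝ] (E c →L[ℝ] E m) :=
  LinearMap.toContinuousLinearMap
    { toFun := fun A => ContinuousLinearMap.adjoint A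
      map_add' := fun A B => map_add _ A B
      map_smul' := fun a A => by
        rw [map_smulₛₗ]
        rfl }

theorem adjL_app (m c : ℕ) (A : E m →L[ℝ] E c) : adjL m c A = ContinuousLinearMap.adjoint A := rfl

theorem adjL_inner (m c : ℕ) (A : E m →L[ℝ] E c) (y : E c) (v : E m) :
    ⟪adjL m c A y, v⟫ = ⟪y, A v⟫ := by
  rw [adjL_app]
  exact ContinuousLinearMap.adjoint_inner_left A v y

theorem exists_equiv (m c : ℕ) (A : E m →L[ℝ] E c) (hA : Function.Surjective A) :
    ∃ e : E c ≃L[ℝ] E c, (e : E c →L[ℝ] E c) = A ∘L adjL m c A := by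
  have hinj : Function.Injective ((A ∘L adjL m c A : E c →L[ℝ] E c) : E c →ₗ[ℝ] E c) := by
    rw [injective_iff_map_eq_zero]
    intro y hy
    have hy' : A (adjL m c A y) = 0 := hy
    have h1 : ⟪adjL m c A y, adjL m c A y⟫ = 0 := by
      rw [adjL_inner, hy', inner_zero_right]
    have h2 : adjL m c A y = 0 := inner_self_eq_zero.1 h1
    obtain ⟨v, hv⟩ := hA y
    have h3 : ⟪y, y⟫ = 0 := by
      have h4 := adjL_inner m c A y v
      rw [h2, inner_zero_left, hv] at h4
      exact h4.symm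
    exact inner_self_eq_zero.1 h3
  refine ⟨(LinearEquiv.ofInjectiveEndo _ hinj).toContinuousLinearEquiv, ?_⟩
  ext1 y
  rfl

/-- the right inverse -/
noncomputable def rinv (m c : ℕ) (A : E m →L[ℝ] E c) : E c →L[ℝ] E m :=
  adjL m c A ∘L ContinuousLinearMap.inverse (A ∘L adjL m c A)

theorem rinv_cda (m c : ℕ) (A : E m →L[ℝ] E c) (hA : Function.Surjective A) :
    ContDiffAt ℝ ∞ (rinv m c) A := by
  obtain ⟨e, he⟩ := exists_equiv m c A hA
  have h1 : ContDiffAt ℝ ∞ (fun B : E m →L[ℝ] E c => adjL m c B) A := (adjL m c).contDiff.contDiffAt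
  have h2 : ContDiffAt ℝ ∞ (fun B : E m →L[ℝ] E c => B ∘L adjL m c B) A :=
    contDiffAt_id.clm_comp h1
  have h3 : ContDiffAt ℝ ∞ ContinuousLinearMap.inverse (A ∘L adjL m c A) := by
    rw [← he]
    exact contDiffAt_map_inverse e
  have h4 : ContDiffAt ℝ ∞ (fun B : E m →L[ℝ] E c =>
      ContinuousLinearMap.inverse (B ∘L adjL m c B)) A :=
    ContDiffAt.comp (g := ContinuousLinearMap.inverse) (f := fun B : E m →L[ℝ] E c =>
      B ∘L adjL m c B) A h3 h2
  exact h1.clm_comp h4

theorem rinv_right (m c : ℕ) (A : E m →L[ℝ] E c) (hA : Function.Surjective A) (y : E c) :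
    A (rinv m c A y) = y := by
  obtain ⟨e, he⟩ := exists_equiv m c A hA
  have h1 : rinv m c A y = adjL m c A (e.symm y) := by
    unfold rinv
    rw [← he, ContinuousLinearMap.inverse_equiv]
    rfl
  have h2 : (A ∘L adjL m c A) (e.symm y) = y := by
    rw [← he]
    exact e.apply_symm_apply y
  rw [h1]
  exact h2

theorem rinv_orth (m c : ℕ) (A : E m →L[ℝ] E c) (y : E c) (v : E m) (hv : A v = 0) :
    ⟪rinv m c A y, v⟫ = 0 := by
  show ⟪adjL m c A (ContinuousLinearMap.inverse (A ∘L adjL m c A) y), v⟫ = 0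
  rw [adjL_inner, hv, inner_zero_right]

theorem pf_RIN : T_RIN := by
  intro m c U F hU hF hs
  refine ⟨fun q => rinv m c (fderiv ℝ F q), ?_, fun q hq => ⟨fun y => rinv_right m c _ (hs q hq) y,
    fun y v hv => rinv_orth m c _ y v hv⟩⟩
  intro q hq
  have h1 : ContDiffAt ℝ ∞ (fderiv ℝ F) q :=
    ((hF q hq).contDiffAt (hU.mem_nhds hq)).fderiv_right (by simp)
  exact ((rinv_cda m c _ (hs q hq)).comp q h1).contDiffWithinAt

end Pool.Agent.H45.RG
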