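import Pool.Agent.H14.RG.Targets

/-!
# Board reg_modules, row A_TAE: tangent vectors are in the kernel
-/

set_option autoImplicit false

namespace Pool.Agent.H45.RG

open MeasureTheory Metric Set Filter Topology Pool.Agent.H87.SN Pool.Agent.H14.RG
open scoped ContDiff RealInnerProductSpace

theorem LocDef_cda {m c : ℕ} {N U : Set (E m)} {F : E m → E c} (hF : LocDef N U F) {q : E m}
    (hq : q ∈ U) : ContDiffAt ℝ ∞ F q :=
  (hF.smooth q hq).contDiffAt (hF.isOpen.mem_nhds hq)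

theorem pf_TAE : T_TAE := by
  rintro m c N U F hF q hq v ⟨γ, hγ, hN, h0, hv⟩
  have hγd : HasDerivAt γ v 0 := by
    have h := (hγ.differentiableAt two_ne_zero).hasDerivAt
    rwa [hv] at h
  have hFd : HasFDerivAt F (fderiv ℝ F q) (γ 0) := by
    rw [h0]
    exact ((LocDef_cda hF hq).differentiableAt (by simp)).hasFDerivAt
  have hcomp : HasDerivAt (F ∘ γ) (fderiv ℝ F q v) 0 := hFd.comp_hasDerivAt 0 hγd
  have hev : F ∘ γ =ᶠ[𝓝 (0 : ℝ)] fun _ => (0 : E c) := by
    have h1 : ∀ᶠ s in 𝓝 (0 : ℝ), γ s ∈ U :=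
      hγ.continuousAt.eventually (by rw [h0]; exact hF.isOpen.mem_nhds hq)
    filter_upwards [h1, hN] with s hs1 hs2
    exact (hF.zero _ hs1).1 hs2
  exact hcomp.unique ((hasDerivAt_const (0 : ℝ) (0 : E c)).congr_of_eventuallyEq hev)

end Pool.Agent.H45.RG
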