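import Pool.Agent.H45.RG.TAE

/-!
# Board reg_modules, row A_TPR: a continuous projection onto the tangent spaces
-/

set_option autoImplicit false

namespace Pool.Agent.H45.RG

open MeasureTheory Metric Set Filter Topology Pool.Agent.H87.SN Pool.Agent.H14.RG
open scoped ContDiff RealInnerProductSpace

theorem pf_TPR (hTAE : T_TAE) (hRIN : T_RIN) (hTAK : T_TAK) : T_TPR := by
  intro m k N hN
  -- the span of the tangent vectors is the kernel
  have hker : ∀ (c : ℕ) (U : Set (E m)) (F : E m → E c), LocDef N U F → ∀ q ∈ N, q ∈ U → ∀ v,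
      (v ∈ Submodule.span ℝ {v | IsTangent N q v} ↔ fderiv ℝ F q v = 0) := by
    intro c U F hF q hqN hqU v
    constructor
    · intro hv
      have h1 : Submodule.span ℝ {v | IsTangent N q v} ≤
          LinearMap.ker (fderiv ℝ F q : E m →ₗ[ℝ] E c) := by
        rw [Submodule.span_le]
        intro w hw
        exact hTAE m c N U F hF q hqU w hw
      exact h1 hv
    · intro hv
      exact Submodule.subset_span (hTAK m c N U F hF q hqN hqU v hv)
  refine ⟨fun q => (Submodule.span ℝ {v | IsTangent N q v}).starProjection, ?_, ?_, ?_⟩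
  · intro p hp
    obtain ⟨c, U, F, -, hpU, hF⟩ := hN.loc p hp
    obtain ⟨R, hR, hR2⟩ := hRIN m c U F hF.isOpen hF.smooth hF.surj
    have hRc : ContinuousAt R p := (hR p hpU).continuousWithinAt.continuousAt
      (hF.isOpen.mem_nhds hpU)
    have hDc : ContinuousAt (fderiv ℝ F) p := by
      have h1 : ContDiffAt ℝ 0 (fderiv ℝ F) p := (LocDef_cda hF hpU).fderiv_right (by simp)
      exact h1.continuousAt
    have hc : ContinuousAt (fun q => ContinuousLinearMap.id ℝ (E m) - R q ∘L fderiv ℝ F q) p :=
      continuousAt_const.sub (hRc.clm_comp hDc)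
    refine hc.continuousWithinAt.congr_of_eventuallyEq ?_ ?_
    · have hUn : ∀ᶠ q in 𝓝[N] p, q ∈ U :=
        mem_nhdsWithin_of_mem_nhds (hF.isOpen.mem_nhds hpU)
      filter_upwards [self_mem_nhdsWithin, hUn] with q hqN hqU
      ext1 v
      have hv : v - R q (fderiv ℝ F q v) ∈ Submodule.span ℝ {v | IsTangent N q v} := by
        rw [hker c U F hF q hqN hqU, map_sub, (hR2 q hqU).1, sub_self]
      refine Submodule.eq_starProjection_of_mem_of_inner_eq_zero hv ?_
      intro w hw
      rw [hker c U F hF q hqN hqU] at hw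
      show ⟪v - (v - R q (fderiv ℝ F q v)), w⟫ = 0
      rw [sub_sub_cancel]
      exact (hR2 q hqU).2 _ w hw
    · ext1 v
      have hv : v - R p (fderiv ℝ F p v) ∈ Submodule.span ℝ {v | IsTangent N p v} := by
        rw [hker c U F hF p hp hpU, map_sub, (hR2 p hpU).1, sub_self]
      refine Submodule.eq_starProjection_of_mem_of_inner_eq_zero hv ?_
      intro w hw
      rw [hker c U F hF p hp hpU] at hw
      show ⟪v - (v - R p (fderiv ℝ F p v)), w⟫ = 0
      rw [sub_sub_cancel]
      exact (hR2 p hpU).2 _ w hw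
  · intro q hq v
    obtain ⟨c, U, F, -, hqU, hF⟩ := hN.loc q hq
    refine hTAK m c N U F hF q hq hqU _ ?_
    rw [← hker c U F hF q hq hqU]
    exact Submodule.starProjection_apply_mem _ v
  · intro q hq v hv
    exact Submodule.starProjection_eq_self_iff.2 (Submodule.subset_span hv)

end Pool.Agent.H45.RG
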