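import Pool.Agent.H90.RG.Targets

/-!
# Board reg_modules, row F_LTG: from small balls to the unit ball
-/

set_option autoImplicit false

namespace Pool.Agent.H45.RG

open MeasureTheory Metric Set Filter Topology Pool.Agent.H87.SN Pool.Agent.H90.RG
open scoped ContDiff RealInnerProductSpace ENNReal

theorem exists_bump {n : ℕ} (r : ℝ) (hr : 0 < r) (c : E n) : ∃ f : E n → ℝ, ContDiff ℝ ∞ f ∧
    tsupport f ⊆ ball c r ∧ (∀ x, 0 ≤ f x ∧ f x ≤ 1) ∧ ∀ x ∈ ball c (r / 3), f x = 1 := by
  have h1 : 0 < r / 3 := by positivity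
  have h2 : r / 3 < 2 * r / 3 := by linarith
  obtain ⟨f, hf⟩ : ∃ f : ContDiffBump c, f = ⟨r / 3, 2 * r / 3, h1, h2⟩ := ⟨_, rfl⟩
  refine ⟨f, f.contDiff, ?_, fun x => ⟨f.nonneg, f.le_one⟩, fun x hx => ?_⟩
  · rw [f.tsupport_eq, hf]
    exact closedBall_subset_ball (by show 2 * r / 3 < r; linarith)
  · refine f.one_of_mem_closedBall ?_
    rw [hf]
    exact ball_subset_closedBall hx

theorem pou (n : ℕ) (r : ℝ) (hr : 0 < r) : ∃ (M : ℕ) (c : Fin M → E n) (ψ : Fin M → E n → ℝ),
    (∀ k, c k ∈ closedBall (0 : E n) 1) ∧ (∀ k, ContDiff ℝ ∞ (ψ k)) ∧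
    (∀ k, tsupport (ψ k) ⊆ ball (c k) r) ∧ (∀ k x, 0 ≤ ψ k x ∧ ψ k x ≤ 1) ∧
    ∀ x ∈ closedBall (0 : E n) 1, ∑ k, ψ k x = 1 := by
  classical
  obtain ⟨t, ht, hcov⟩ := (isCompact_closedBall (0 : E n) 1).elim_nhds_subcover
    (fun x => ball x (r / 3)) (fun x _ => ball_mem_nhds x (by positivity))
  choose f hf1 hf2 hf3 hf4 using fun c : E n => exists_bump r hr c
  have hft : ∀ k : Fin t.card, ((t.equivFin.symm k : t) : E n) ∈ t := fun k =>
    (t.equivFin.symm k).2
  refine ⟨t.card, fun k => ((t.equivFin.symm k : t) : E n),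
    fun k x => f ((t.equivFin.symm k : t) : E n) x *
      ∏ l ∈ Finset.univ.filter (· < k), (1 - f ((t.equivFin.symm l : t) : E n) x),
    fun k => ht _ (hft k), fun k => ?_, fun k => ?_, fun k x => ?_, fun x hx => ?_⟩
  · exact (hf1 _).mul (contDiff_prod fun l _ => contDiff_const.sub (hf1 _))
  · exact (tsupport_mul_subset_left).trans (hf2 _)
  · have h0 : 0 ≤ ∏ l ∈ Finset.univ.filter (· < k), (1 - f ((t.equivFin.symm l : t) : E n) x) :=
      Finset.prod_nonneg fun l _ => by linarith [(hf3 ((t.equivFin.symm l : t) : E n) x).2]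
    have h1 : ∏ l ∈ Finset.univ.filter (· < k), (1 - f ((t.equivFin.symm l : t) : E n) x) ≤ 1 :=
      Finset.prod_le_one (fun l _ => by linarith [(hf3 ((t.equivFin.symm l : t) : E n) x).2])
        fun l _ => by linarith [(hf3 ((t.equivFin.symm l : t) : E n) x).1]
    exact ⟨mul_nonneg (hf3 _ x).1 h0, mul_le_one₀ (hf3 _ x).2 h0 h1⟩
  · have h1 := Finset.prod_one_sub_ordered (Finset.univ : Finset (Fin t.card))
      (fun k => f ((t.equivFin.symm k : t) : E n) x)
    obtain ⟨c, hc, hxc⟩ := mem_iUnion₂.1 (hcov hx)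
    have h2 : ∏ k : Fin t.card, (1 - f ((t.equivFin.symm k : t) : E n) x) = 0 := by
      refine Finset.prod_eq_zero (Finset.mem_univ (t.equivFin ⟨c, hc⟩)) ?_
      rw [Equiv.symm_apply_apply, hf4 c x hxc, sub_self]
    rw [h2] at h1
    linarith

theorem l2_int {n m : ℕ} (G : E n → E n →L[ℝ] E m)
    (hG : MemLp G 2 (volume.restrict (ball (0 : E n) 2))) (j : Fin n) :
    IntegrableOn (fun x => G x (bv j)) (ball (0 : E n) 2) := by
  have hfin : IsFiniteMeasure (volume.restrict (ball (0 : E n) 2)) :=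
    ⟨by rw [Measure.restrict_apply_univ]; exact measure_ball_lt_top⟩
  have h1 : Integrable G (volume.restrict (ball (0 : E n) 2)) := hG.integrable one_le_two
  exact (ContinuousLinearMap.apply ℝ (E m) (bv j)).integrable_comp h1

theorem test_int {n m : ℕ} (f : E n → ℝ) (g : E n → E m) (S : Set (E n))
    (hf : Continuous f) (hfc : HasCompactSupport f) (hfs : tsupport f ⊆ S) (hg : IntegrableOn g S) :
    Integrable (fun x => f x • g x) := by
  obtain ⟨C, hC⟩ := hf.bounded_above_of_compact_support hfc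
  rw [← integrableOn_iff_integrable_of_support_subset (s := S)]
  · refine Integrable.mono (hg.smul C) (hf.aestronglyMeasurable.smul hg.aestronglyMeasurable)
      (ae_of_all _ fun x => ?_)
    rw [norm_smul, Pi.smul_apply, norm_smul]
    exact mul_le_mul_of_nonneg_right ((hC x).trans (Real.le_norm_self C)) (norm_nonneg _)
  · intro x hx
    refine hfs (subset_tsupport f ?_)
    intro h0
    refine hx ?_
    show f x • g x = 0
    rw [h0, zero_smul]

/-- the size of the Hessian -/
noncomputable def hsz {n m : ℕ} (H : Fin n → Fin n → E n → E m) (x : E n) : ℝ :=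
  Real.sqrt (∑ i, ∑ j, ‖H i j x‖ ^ 2)

theorem hsz_ge {n m : ℕ} (H : Fin n → Fin n → E n → E m) (x : E n) (i j : Fin n) :
    ‖H i j x‖ ≤ hsz H x := by
  refine Real.le_sqrt_of_sq_le ?_
  refine le_trans ?_ (Finset.single_le_sum (f := fun i => ∑ j, ‖H i j x‖ ^ 2)
    (fun i _ => Finset.sum_nonneg fun j _ => sq_nonneg _) (Finset.mem_univ i))
  exact Finset.single_le_sum (f := fun j => ‖H i j x‖ ^ 2) (fun j _ => sq_nonneg _)
    (Finset.mem_univ j)

theorem hsz_le {n m : ℕ} (H : Fin n → Fin n → E n → E m) (x : E n) (B : ℝ) (hB : 0 ≤ B)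
    (h : ∀ i j, ‖H i j x‖ ≤ B) : hsz H x ≤ n * B := by
  refine Real.sqrt_le_iff.2 ⟨by positivity, ?_⟩
  calc ∑ i, ∑ j, ‖H i j x‖ ^ 2 ≤ ∑ _i : Fin n, ∑ _j : Fin n, B ^ 2 :=
        Finset.sum_le_sum fun i _ => Finset.sum_le_sum fun j _ =>
          pow_le_pow_left₀ (norm_nonneg _) (h i j) 2
    _ = (n * B) ^ 2 := by
        rw [Finset.sum_const, Finset.sum_const, Finset.card_univ, Fintype.card_fin, nsmul_eq_mul,
          nsmul_eq_mul]
        ring

theorem pf_LTG : T_LTG := by
  intro n r hr
  obtain ⟨M, c, ψ, hc, hψ1, hψ2, hψ3, hψ4⟩ := pou n r hr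
  refine ⟨(n : ℝ) * M, by positivity, ?_⟩
  intro m G δ hδ hG hHB
  choose H hH1 hH2 hH3 using fun k => hHB (c k) (hc k)
  have hψc : ∀ k, HasCompactSupport (ψ k) := fun k =>
    (isCompact_closedBall (c k) r).of_isClosed_subset (isClosed_tsupport _)
      ((hψ2 k).trans ball_subset_closedBall)
  have hHi : ∀ k i j, Integrable (fun x => ψ k x • H k i j x) := fun k i j =>
    test_int (ψ k) (H k i j) (ball (c k) r) (hψ1 k).continuous (hψc k) (hψ2 k) (hH1 k i j)
  refine ⟨fun i j x => ∑ k, ψ k x • H k i j x, ?_, ?_, ?_⟩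
  · intro i j
    exact (integrable_finsetSum _ fun k _ => hHi k i j).integrableOn
  · intro i j φ hφ hφc hφs
    have hφ2 : ball (0 : E n) 1 ⊆ ball 0 2 := ball_subset_ball one_le_two
    have hψφ : ∀ k, ContDiff ℝ ∞ (fun x => ψ k x * φ x) := fun k => (hψ1 k).mul hφ
    have hψφc : ∀ k, HasCompactSupport (fun x => ψ k x * φ x) := fun k => hφc.mul_left
    have hψφs : ∀ k, tsupport (fun x => ψ k x * φ x) ⊆ ball (c k) r := fun k =>
      (tsupport_mul_subset_left).trans (hψ2 k)
    have hψφs' : ∀ k, tsupport (fun x => ψ k x * φ x) ⊆ ball 0 1 := fun k =>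
      (tsupport_mul_subset_right).trans hφs
    have hsum : φ = fun x => ∑ k, ψ k x * φ x := by
      funext x
      rw [← Finset.sum_mul]
      by_cases hx : x ∈ closedBall (0 : E n) 1
      · rw [hψ4 x hx, one_mul]
      · have : φ x = 0 := by
          by_contra hne
          exact hx (ball_subset_closedBall (hφs (subset_tsupport φ hne)))
        rw [this, mul_zero]
    have hfd : ∀ x, fderiv ℝ φ x (bv i) = ∑ k, fderiv ℝ (fun x => ψ k x * φ x) x (bv i) := by
      intro x
      have h1 : HasFDerivAt (fun x => ∑ k, ψ k x * φ x)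
          (∑ k, fderiv ℝ (fun x => ψ k x * φ x) x) x :=
        HasFDerivAt.fun_sum fun k _ => ((hψφ k).differentiable (by simp) x).hasFDerivAt
      rw [← hsum] at h1
      rw [h1.fderiv]
      simp
    have hint : ∀ k, Integrable (fun x => fderiv ℝ (fun x => ψ k x * φ x) x (bv i) • G x (bv j)) := by
      intro k
      have h1 : Continuous (fun x => fderiv ℝ (fun x => ψ k x * φ x) x (bv i)) :=
        ((hψφ k).continuous_fderiv (by simp)).clm_apply continuous_const
      have h2 : tsupport (fun x => fderiv ℝ (fun x => ψ k x * φ x) x (bv i)) ⊆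
          tsupport (fun x => ψ k x * φ x) := tsupport_fderiv_apply_subset ℝ (bv i)
      exact test_int _ (fun x => G x (bv j)) (ball 0 2) h1
        ((hψφc k).isCompact.of_isClosed_subset (isClosed_tsupport _) h2)
        (h2.trans ((hψφs' k).trans hφ2)) (l2_int G hG j)
    have hint2 : ∀ k, Integrable (fun x => φ x • (ψ k x • H k i j x)) := by
      intro k
      have h1 := test_int (fun x => ψ k x * φ x) (H k i j) (ball (c k) r) (hψφ k).continuous
        (hψφc k) (hψφs k) (hH1 k i j)
      refine h1.congr (ae_of_all _ fun x => ?_)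
      show (ψ k x * φ x) • H k i j x = φ x • (ψ k x • H k i j x)
      rw [smul_smul, mul_comm]
    calc ∫ x, (fderiv ℝ φ x (bv i)) • G x (bv j)
        = ∫ x, ∑ k, fderiv ℝ (fun x => ψ k x * φ x) x (bv i) • G x (bv j) := by
          refine integral_congr_ae (ae_of_all _ fun x => ?_)
          simp only
          rw [hfd x, Finset.sum_smul]
      _ = ∑ k, ∫ x, fderiv ℝ (fun x => ψ k x * φ x) x (bv i) • G x (bv j) :=
          integral_finsetSum _ fun k _ => hint k
      _ = ∑ k, -∫ x, φ x • (ψ k x • H k i j x) := by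
          refine Finset.sum_congr rfl fun k _ => ?_
          rw [hH2 k i j _ (hψφ k) (hψφc k) (hψφs k)]
          congr 1
          refine integral_congr_ae (ae_of_all _ fun x => ?_)
          show (ψ k x * φ x) • H k i j x = φ x • (ψ k x • H k i j x)
          rw [smul_smul, mul_comm]
      _ = -∫ x, φ x • ∑ k, ψ k x • H k i j x := by
          rw [Finset.sum_neg_distrib, ← integral_finsetSum _ fun k _ => hint2 k]
          congr 1
          refine integral_congr_ae (ae_of_all _ fun x => ?_)
          simp only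
          rw [Finset.smul_sum]
  · have hpt : ∀ x, hsz (fun i j x => ∑ k, ψ k x • H k i j x) x ≤
        n * ∑ k, (ball (c k) r).indicator (hsz (H k)) x := by
      intro x
      have hnn : ∀ k, 0 ≤ (ball (c k) r).indicator (hsz (H k)) x := fun k =>
        indicator_nonneg (fun _ _ => Real.sqrt_nonneg _) x
      refine hsz_le _ x _ (Finset.sum_nonneg fun k _ => hnn k) fun i j => ?_
      refine (norm_sum_le _ _).trans (Finset.sum_le_sum fun k _ => ?_)
      by_cases hx : x ∈ ball (c k) r
      · rw [indicator_of_mem hx, norm_smul, Real.norm_of_nonneg (hψ3 k x).1]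
        exact (mul_le_of_le_one_left (norm_nonneg _) (hψ3 k x).2).trans (hsz_ge (H k) x i j)
      · have h0 : ψ k x = 0 := by
          by_contra hne
          exact hx (hψ2 k (subset_tsupport _ hne))
        rw [h0, zero_smul, norm_zero]
        exact hnn k
    have hae : ∀ k, AEMeasurable (fun x => ENNReal.ofReal (hsz (H k) x))
        (volume.restrict (ball (c k) r)) := by
      intro k
      refine AEMeasurable.ennreal_ofReal ?_
      refine Real.continuous_sqrt.measurable.comp_aemeasurable ?_
      refine Finset.aemeasurable_fun_sum _ fun i _ => Finset.aemeasurable_fun_sum _ fun j _ => ?_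
      exact (hH1 k i j).aestronglyMeasurable.norm.aemeasurable.pow_const 2
    have hlin : ∀ k, ∫⁻ x, (ball (c k) r).indicator (fun x => ENNReal.ofReal (hsz (H k) x)) x ≤
        ENNReal.ofReal δ := by
      intro k
      rw [lintegral_indicator measurableSet_ball]
      exact hH3 k
    calc ∫⁻ x in ball 0 1, ENNReal.ofReal (hsz (fun i j x => ∑ k, ψ k x • H k i j x) x)
        ≤ ∫⁻ x, ENNReal.ofReal (hsz (fun i j x => ∑ k, ψ k x • H k i j x) x) :=
          setLIntegral_le_lintegral _ _
      _ ≤ ∫⁻ x, ENNReal.ofReal n *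
          ∑ k, (ball (c k) r).indicator (fun x => ENNReal.ofReal (hsz (H k) x)) x := by
          refine lintegral_mono fun x => ?_
          have h1 : ∀ k, (ball (c k) r).indicator (fun x => ENNReal.ofReal (hsz (H k) x)) x =
              ENNReal.ofReal ((ball (c k) r).indicator (hsz (H k)) x) := by
            intro k
            by_cases hx : x ∈ ball (c k) r
            · rw [indicator_of_mem hx, indicator_of_mem hx]
            · rw [indicator_of_notMem hx, indicator_of_notMem hx, ENNReal.ofReal_zero]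
          have h0 : ∀ k ∈ (Finset.univ : Finset (Fin M)),
              0 ≤ (ball (c k) r).indicator (hsz (H k)) x := fun k _ =>
            indicator_nonneg (fun _ _ => Real.sqrt_nonneg _) x
          rw [Finset.sum_congr rfl fun k _ => h1 k, ← ENNReal.ofReal_sum_of_nonneg h0,
            ← ENNReal.ofReal_mul (Nat.cast_nonneg n)]
          exact ENNReal.ofReal_le_ofReal (hpt x)
      _ = ENNReal.ofReal n * ∑ k, ∫⁻ x,
          (ball (c k) r).indicator (fun x => ENNReal.ofReal (hsz (H k) x)) x := by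
          rw [lintegral_const_mul' _ _ ENNReal.ofReal_ne_top, lintegral_finsetSum' _ fun k _ =>
            (aemeasurable_indicator_iff measurableSet_ball).2 (hae k)]
      _ ≤ ENNReal.ofReal n * ∑ _k : Fin M, ENNReal.ofReal δ := by
          gcongr with k _
          exact hlin k
      _ = ENNReal.ofReal (n * M * δ) := by
          rw [Finset.sum_const, Finset.card_univ, Fintype.card_fin, nsmul_eq_mul, mul_assoc,
            ENNReal.ofReal_mul (Nat.cast_nonneg n), ENNReal.ofReal_mul (Nat.cast_nonneg M),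
            ENNReal.ofReal_natCast M]

end Pool.Agent.H45.RG
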