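import Pool.Agent.H90.RG.Targets

/-!
# Board reg_modules, row G_ZHB: zoom of the Hessian bound
-/

set_option autoImplicit false

namespace Pool.Agent.H45.RG

open MeasureTheory Metric Set Filter Topology Pool.Agent.H87.SN Pool.Agent.H90.RG
open scoped ContDiff RealInnerProductSpace ENNReal

theorem zt_inv {n : ℕ} (c : E n) (r : ℝ) (hr : 0 < r) (y : E n) :
    r⁻¹ • (zt c r y - c) = y := by
  unfold zt
  rw [add_sub_cancel_left, smul_smul, inv_mul_cancel₀ hr.ne', one_smul]

theorem zt_hfd {n : ℕ} (c : E n) (r : ℝ) (y : E n) :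
    HasFDerivAt (zt c r) (r • ContinuousLinearMap.id ℝ (E n)) y :=
  ((hasFDerivAt_id y).const_smul r).const_add c

theorem zt_cd {n : ℕ} (c : E n) (r : ℝ) : ContDiff ℝ ∞ (zt c r) :=
  contDiff_const.add (contDiff_id.const_smul r)

theorem pf_ZHB (h : T_ZCV) : T_ZHB := by
  intro n m G c r R δ hr hr1 hδ hHB
  obtain ⟨H, hH1, hH2, hH3⟩ := hHB
  obtain ⟨z1, z2, z3, z4, -⟩ := h n c r hr
  have hpre : zt c r ⁻¹' ball c (r * R) = ball 0 R := by
    have h1 := z3 0 R
    have h2 : zt c r 0 = c := by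
      unfold zt
      rw [smul_zero, add_zero]
    rwa [h2] at h1
  have hr2 : (r ^ 2)⁻¹ ≠ 0 := inv_ne_zero (pow_ne_zero 2 hr.ne')
  have hr2p : 0 < (r ^ 2)⁻¹ := inv_pos.2 (pow_pos hr 2)
  obtain ⟨H', hH'⟩ : ∃ H' : Fin n → Fin n → E n → E m,
      H' = fun i j x => (r ^ 2)⁻¹ • H i j (r⁻¹ • (x - c)) := ⟨_, rfl⟩
  have hHz : ∀ i j y, H' i j (zt c r y) = (r ^ 2)⁻¹ • H i j y := by
    intro i j y
    rw [hH']
    simp only
    rw [zt_inv c r hr]
  refine ⟨H', ?_, ?_, ?_⟩
  · intro i j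
    rw [(z4 (E m) (H' i j) (ball c (r * R)) measurableSet_ball).2, hpre]
    have e1 : (fun y => H' i j (zt c r y)) = fun y => (r ^ 2)⁻¹ • H i j y :=
      funext fun y => hHz i j y
    rw [e1]
    exact Integrable.smul ((r ^ 2)⁻¹) (hH1 i j)
  · intro i j φ hφ hφc hφs
    have hψ : ContDiff ℝ ∞ (fun y => φ (zt c r y)) := hφ.comp (zt_cd c r)
    have hψc : HasCompactSupport (fun y => φ (zt c r y)) := by
      have hK : IsCompact ((fun x : E n => r⁻¹ • (x - c)) '' tsupport φ) :=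
        hφc.isCompact.image (by fun_prop)
      refine HasCompactSupport.intro hK ?_
      intro y hy
      by_contra hne
      exact hy ⟨zt c r y, subset_tsupport φ hne, zt_inv c r hr y⟩
    have hψs : tsupport (fun y => φ (zt c r y)) ⊆ ball 0 R := by
      rw [← hpre]
      have h1 : tsupport (fun y => φ (zt c r y)) ⊆ zt c r ⁻¹' tsupport φ := by
        refine closure_minimal ?_ ((isClosed_tsupport φ).preimage (zt_cd c r).continuous)
        intro y hy
        exact subset_tsupport φ hy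
      exact h1.trans (preimage_mono hφs)
    have hb := hH2 i j _ hψ hψc hψs
    have hfd : ∀ y, fderiv ℝ (fun y => φ (zt c r y)) y (bv i) = r * fderiv ℝ φ (zt c r y) (bv i) := by
      intro y
      have h1 : HasFDerivAt (fun y => φ (zt c r y))
          ((fderiv ℝ φ (zt c r y)).comp (r • ContinuousLinearMap.id ℝ (E n))) y :=
        ((hφ.differentiable (by simp) _).hasFDerivAt).comp y (zt_hfd c r y)
      rw [h1.fderiv]
      show fderiv ℝ φ (zt c r y) (r • bv i) = _
      rw [map_smul, smul_eq_mul]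
    have e1 : (fun y => (fderiv ℝ (fun y => φ (zt c r y)) y (bv i)) • zg c r G y (bv j)) =
        fun y => (r ^ 2) • ((fderiv ℝ φ (zt c r y) (bv i)) • G (zt c r y) (bv j)) := by
      funext y
      rw [hfd y]
      show (r * fderiv ℝ φ (zt c r y) (bv i)) • (r • G (zt c r y) (bv j)) = _
      rw [smul_smul, smul_smul]
      congr 1
      ring
    have e2 : (fun y => φ (zt c r y) • H i j y) =
        fun y => (r ^ 2) • (φ (zt c r y) • H' i j (zt c r y)) := by
      funext y
      rw [hHz, smul_smul, smul_smul]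
      congr 1
      field_simp
    rw [e1, e2, integral_smul, integral_smul] at hb
    have e3 := z1 (E m) (fun x => (fderiv ℝ φ x (bv i)) • G x (bv j)) univ MeasurableSet.univ
    have e4 := z1 (E m) (fun x => φ x • H' i j x) univ MeasurableSet.univ
    rw [preimage_univ, setIntegral_univ, setIntegral_univ] at e3 e4
    rw [e3, e4, ← smul_neg, ← smul_neg, smul_smul, smul_smul] at hb
    have hne : r ^ 2 * (r ^ n)⁻¹ ≠ 0 :=
      mul_ne_zero (pow_ne_zero 2 hr.ne') (inv_ne_zero (pow_ne_zero n hr.ne'))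
    exact smul_right_injective (E m) hne hb
  · have e1 := z2 (fun x => ENNReal.ofReal (Real.sqrt (∑ i, ∑ j, ‖H' i j x‖ ^ 2))) (ball c (r * R))
      measurableSet_ball
    rw [hpre] at e1
    have e2 : ∀ y, ENNReal.ofReal (Real.sqrt (∑ i, ∑ j, ‖H' i j (zt c r y)‖ ^ 2)) =
        ENNReal.ofReal ((r ^ 2)⁻¹) * ENNReal.ofReal (Real.sqrt (∑ i, ∑ j, ‖H i j y‖ ^ 2)) := by
      intro y
      rw [← ENNReal.ofReal_mul hr2p.le]
      congr 1
      have e3 : ∑ i, ∑ j, ‖H' i j (zt c r y)‖ ^ 2 = ((r ^ 2)⁻¹) ^ 2 * ∑ i, ∑ j, ‖H i j y‖ ^ 2 := by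
        rw [Finset.mul_sum]
        refine Finset.sum_congr rfl fun i _ => ?_
        rw [Finset.mul_sum]
        refine Finset.sum_congr rfl fun j _ => ?_
        rw [hHz, norm_smul, Real.norm_of_nonneg hr2p.le, mul_pow]
      rw [e3, Real.sqrt_mul (by positivity), Real.sqrt_sq hr2p.le]
    have e4 : ∫⁻ y in ball 0 R, ENNReal.ofReal (Real.sqrt (∑ i, ∑ j, ‖H' i j (zt c r y)‖ ^ 2)) ≤
        ENNReal.ofReal ((r ^ 2)⁻¹ * δ) := by
      rw [lintegral_congr e2, lintegral_const_mul' _ _ ENNReal.ofReal_ne_top,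
        ENNReal.ofReal_mul hr2p.le]
      gcongr
    rw [e1] at e4
    have e5 : ∀ x : ℝ≥0∞, x ≤ ENNReal.ofReal ((r ^ n)⁻¹) * x := by
      intro x
      refine le_mul_of_one_le_left bot_le ?_
      rw [ENNReal.one_le_ofReal]
      exact (one_le_inv₀ (pow_pos hr n)).2 (pow_le_one₀ hr.le hr1)
    exact (e5 _).trans e4

end Pool.Agent.H45.RG
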